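import Pool.Agent.V11316.CP4

/-!
# Chen's theorem for exact patterns

Let `T` be an admissible finite set of integers, `0 ∈ T`, `h ∈ T`, `h ≠ 0`. We count the primes `n` such
that `n + h` is a product of at most two large primes, all `n + s`, `s ∈ T`, are products of boundedly many
large primes, and NO other number `n + e` with `|e| ≤ L` is free of small prime factors: the numbers
without small prime factors near `n` form exactly the pattern `T`.
-/

set_option autoImplicit false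

namespace Pool.Agent.Results.MP_3ec731_nt.ChenExactPatterns

open Finset Filter

/-- `k ≠ 0` is up to the sign a product of at most `N` primes, all of them larger than `y` -/
def Rough (N : ℕ) (y : ℝ) (k : ℤ) : Prop :=
  k ≠ 0 ∧ k.natAbs.primeFactorsList.length ≤ N ∧ ∀ q : ℕ, q.Prime → (q : ℤ) ∣ k → y < q

/-- for every prime `q` the elements of `T` miss a residue class modulo `q` -/
def Admissible (T : Finset ℤ) : Prop := ∀ q : ℕ, q.Prime → ∃ y : ℤ, ∀ s ∈ T, ¬ (q : ℤ) ∣ y + s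

open Classical in
/-- the `n` of `(A, B]` such that, with `y = X ^ (1/t)`: `n` is a prime `> y`, `n + h` is a product of at
most two primes, larger than `X ^ (1/9)` and `y`, all `n + s`, `s ∈ T`, are (up to the sign) products of at
most `t` primes larger than `y`, and all the other numbers `n + e` with `|e| ≤ L` have a prime
factor `≤ y` -/
noncomputable def P (t X : ℕ) (T : Finset ℤ) (h : ℤ) (L A B : ℕ) : Finset ℕ :=
  (Ioc A B).filter (fun n : ℕ => n.Prime ∧ (X : ℝ) ^ (1 / (t : ℝ)) < n ∧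
    Rough 2 (max ((X : ℝ) ^ (1 / 9 : ℝ)) ((X : ℝ) ^ (1 / (t : ℝ)))) (n + h) ∧
    (∀ s ∈ T, Rough t ((X : ℝ) ^ (1 / (t : ℝ))) (n + s)) ∧
    ∀ e : ℤ, |e| ≤ L → e ∉ T → ∃ q : ℕ, q.Prime ∧ (q : ℝ) ≤ (X : ℝ) ^ (1 / (t : ℝ)) ∧ (q : ℤ) ∣ n + e)

open Classical in
/-- the number of the progressions `a, a + d, …, a + (k - 1) d` in `S` with `1 ≤ d ≤ D` -/
noncomputable def AP (k D : ℕ) (S : Finset ℕ) : ℕ :=
  ((S ×ˢ Icc 1 D).filter (fun q => ∀ j < k, q.1 + j * q.2 ∈ S)).card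

theorem P_eq {t X L A B : ℕ} (ht : 1 ≤ t) {T : Finset ℤ} {h : ℤ} (h0 : (0 : ℤ) ∈ T) (hh : h ∈ T)
    (hne : h ≠ 0) (hT : ∀ s ∈ T, |s| ≤ L) (hLX : L + 1 ≤ X) (hX : 2 < (X : ℝ) ^ (1 / (t : ℝ)))
    (hB : B ≤ X) : Pool.Agent.V11316.CP.I t X T h L A B = P t X T h L A B := by
  classical
  have ht0 : (0 : ℝ) < t := by exact_mod_cast ht
  have hX0 : (0 : ℝ) < X := by exact_mod_cast (by omega : 0 < X)
  obtain ⟨y, hy⟩ : ∃ y : ℝ, y = (X : ℝ) ^ (1 / (t : ℝ)) := ⟨_, rfl⟩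
  have hyt : ((2 * X : ℕ) : ℝ) < y ^ (t + 1) := by
    have h3 : y ^ t = X := by
      rw [hy, ← Real.rpow_natCast, ← Real.rpow_mul hX0.le, one_div, inv_mul_cancel₀ ht0.ne',
        Real.rpow_one]
    rw [pow_succ, h3]
    push_cast
    rw [← hy] at hX
    nlinarith
  unfold Pool.Agent.V11316.CP.I P Pool.Agent.Y840.CT.GoodF
  rw [← hy] at hX ⊢
  rw [filter_filter]
  apply filter_congr
  intro n hn
  rw [mem_Ioc] at hn
  have e1 : -h - (n : ℤ) = -((n : ℤ) + h) := by ring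
  constructor
  · rintro ⟨⟨h1, h2, ⟨h3a, h3b, h3c⟩, h4⟩, h5⟩
    have hsm : ∀ s ∈ T, ∀ q : ℕ, q.Prime → (q : ℤ) ∣ n + s → y < q := by
      intro s hs q hq hd
      by_contra hcon
      push Not at hcon
      by_cases hs0 : s = 0
      · subst hs0
        rw [add_zero] at hd
        have h6 := (Nat.prime_dvd_prime_iff_eq hq h1).1 (by exact_mod_cast hd)
        rw [h6] at hcon
        linarith
      · apply h4 q hq hcon (-s) (Pool.Agent.V11316.CP.mem_Ft.2 ⟨s, hs, hs0, rfl⟩)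
        have := (dvd_neg (a := (q : ℤ))).2 hd
        have e' : -((n : ℤ) + s) = -s - n := by ring
        rwa [e'] at this
    refine ⟨h1, h2, ?_, ?_, h5⟩
    · have hR : Pool.Agent.Y840.CT.Rough 2 (max ((X : ℝ) ^ (1 / 9 : ℝ)) y) (-((n : ℤ) + h)) := by
        rw [← e1]
        refine ⟨h3a, h3b, fun q hq hd => max_lt (h3c q hq hd) ?_⟩
        apply hsm h hh q hq
        rw [e1] at hd
        exact (dvd_neg).1 hd
      have := Pool.Agent.V11316.CP.Rough_neg' hR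
      rw [neg_neg] at this
      exact this
    · intro s hs
      have hne0 : (n : ℤ) + s ≠ 0 := by
        intro h6
        have := hsm s hs 2 Nat.prime_two (by rw [h6]; exact dvd_zero _)
        push_cast at this
        linarith
      refine ⟨hne0, ?_, hsm s hs⟩
      have h7 := hT s hs
      rw [abs_le] at h7
      have hsz : ((n : ℤ) + s).natAbs ≤ 2 * X := by omega
      apply Pool.Agent.Y840.CT.length_le (Int.natAbs_ne_zero.2 hne0) (by linarith) _ hyt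
      · intro q hq hdv
        exact hsm s hs q hq (Int.natCast_dvd.2 hdv)
      · exact_mod_cast hsz
  · rintro ⟨h1, h2, ⟨h3a, h3b, h3c⟩, h4, h5⟩
    refine ⟨⟨h1, h2, ?_, ?_⟩, h5⟩
    · rw [e1]
      exact Pool.Agent.V11316.CP.Rough_neg' ⟨h3a, h3b, fun q hq hd =>
        lt_of_le_of_lt (le_max_left _ _) (h3c q hq hd)⟩
    · intro q hq hqy a ha hd
      obtain ⟨s, hs, _, rfl⟩ := Pool.Agent.V11316.CP.mem_Ft.1 ha
      have e' : -s - (n : ℤ) = -((n : ℤ) + s) := by ring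
      rw [e'] at hd
      have := (h4 s hs).2.2 q hq ((dvd_neg).1 hd)
      linarith

/-- **Theorem.** Let `T` be an admissible finite set of integers, `0 ∈ T`, `0 ≠ h ∈ T`, and let
`|s| ≤ L` for all `s ∈ T`. There are `t` and `c, C > 0` such that: (1) for `θ > 0`, large `X` and all
`0 ≤ A < B ≤ X` with `B - A ≥ θ X` the number of elements of `P` lies between
`c (B - A) / (log X) ^ #T` and `C (B - A) / (log X) ^ #T`; (2) for all `k ≥ 1` and `δ > 0` there are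
`c', C' > 0` and `b` such that for `D` between `(log X) ^ b` and `B - A` every subset `S` of `P` contains
at most `C' (B - A) D / (log X) ^ (k #T)` progressions of `k` terms with difference at most `D`; at least
`c' (B - A) D / (log X) ^ (k #T)` of them if `#S ≥ δ #P`; and if it contains at least
`δ (B - A) D / (log X) ^ (k #T)` of them then `#S ≥ c' #P`. -/
theorem result (T : Finset ℤ) (h0 : (0 : ℤ) ∈ T) (hadm : Admissible T) (h : ℤ) (hh : h ∈ T)
    (hne : h ≠ 0) (L : ℕ) (hT : ∀ s ∈ T, |s| ≤ L) : ∃ t : ℕ, 1 ≤ t ∧ ∃ c C : ℝ, 0 < c ∧ 0 < C ∧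
    (∀ θ : ℝ, 0 < θ → ∃ X₀ : ℕ, ∀ X : ℕ, X₀ ≤ X → ∀ A B : ℕ, B ≤ X → θ * X ≤ (B : ℝ) - A →
        c * (((B : ℝ) - A) / Real.log X ^ T.card) ≤ ((P t X T h L A B).card : ℝ) ∧
        ((P t X T h L A B).card : ℝ) ≤ C * (((B : ℝ) - A) / Real.log X ^ T.card)) ∧
    (∀ k : ℕ, 1 ≤ k → ∀ δ : ℝ, 0 < δ → ∃ c' C' : ℝ, 0 < c' ∧ 0 < C' ∧ ∃ b : ℕ, ∀ θ : ℝ, 0 < θ →
      ∃ X₀ : ℕ, ∀ X : ℕ, X₀ ≤ X → ∀ A B : ℕ, B ≤ X →
      θ * X ≤ (B : ℝ) - A → ∀ D : ℕ, Real.log X ^ b ≤ D → (D : ℝ) ≤ (B : ℝ) - A →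
      ∀ S : Finset ℕ, S ⊆ P t X T h L A B →
        (AP k D S : ℝ) ≤ C' * (((B : ℝ) - A) * D / Real.log X ^ (k * T.card)) ∧
        (δ * ((P t X T h L A B).card : ℝ) ≤ S.card →
          c' * (((B : ℝ) - A) * D / Real.log X ^ (k * T.card)) ≤ (AP k D S : ℝ)) ∧
        (δ * (((B : ℝ) - A) * D / Real.log X ^ (k * T.card)) ≤ (AP k D S : ℝ) →
          c' * ((P t X T h L A B).card : ℝ) ≤ S.card)) := by
  classical
  obtain ⟨t, ht, c, C, hc, hC, H1, H2⟩ := Pool.Agent.V11316.CP.pattern T h0 hadm h hh hne L hT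
  have ht0 : (0 : ℝ) < t := by exact_mod_cast ht
  have hbig : ∃ X₁ : ℕ, ∀ X : ℕ, X₁ ≤ X → (2 : ℝ) < (X : ℝ) ^ (1 / (t : ℝ)) := by
    have := ((tendsto_rpow_atTop (show (0 : ℝ) < 1 / t by positivity)).comp
      (tendsto_natCast_atTop_atTop (R := ℝ))).eventually (eventually_gt_atTop 2)
    exact eventually_atTop.1 this
  obtain ⟨X₁, hX₁⟩ := hbig
  refine ⟨t, ht, c, C, hc, hC, ?_, ?_⟩
  · intro θ hθ
    obtain ⟨X₀, h1⟩ := H1 θ hθ
    refine ⟨max X₀ (max X₁ (L + 1)), fun X hX A B hB hAB => ?_⟩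
    have a1 : X₀ ≤ X := (le_max_left _ _).trans hX
    have a2 : X₁ ≤ X := le_trans (le_trans (le_max_left _ _) (le_max_right _ _)) hX
    have a3 : L + 1 ≤ X := le_trans (le_trans (le_max_right _ _) (le_max_right _ _)) hX
    have g := h1 X a1 A B hB hAB
    rw [P_eq ht h0 hh hne hT a3 (hX₁ X a2) hB] at g
    exact g
  · intro k hk δ hδ
    obtain ⟨c', C', hc', hC', b, h1⟩ := H2 k hk δ hδ
    refine ⟨c', C', hc', hC', b, fun θ hθ => ?_⟩
    obtain ⟨X₀, h2⟩ := h1 θ hθ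
    refine ⟨max X₀ (max X₁ (L + 1)), fun X hX A B hB hAB D hD1 hD2 S hS => ?_⟩
    have a1 : X₀ ≤ X := (le_max_left _ _).trans hX
    have a2 : X₁ ≤ X := le_trans (le_trans (le_max_left _ _) (le_max_right _ _)) hX
    have a3 : L + 1 ≤ X := le_trans (le_trans (le_max_right _ _) (le_max_right _ _)) hX
    have e := P_eq (A := A) ht h0 hh hne hT a3 (hX₁ X a2) hB
    have g := h2 X a1 A B hB hAB D hD1 hD2 S (by rw [e]; exact hS)
    rw [e] at g
    exact g

end Pool.Agent.Results.MP_3ec731_nt.ChenExactPatterns
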