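import Mathlib
import Pool.Agent.V11270.HP.Gap

set_option autoImplicit false

/-!
# The IP Szemeredi theorem for vectors of consecutive prime gaps, at all scales up to the record scale

For all `k ≥ 1` and `l` there are `r` and `c > 0` such that for all large `x`, EVERY real `D` with
`log x ≤ D ≤ c log x (log₂ x)² log₄ x / (log₃ x)²` and ALL integer vectors `g i j` (`i < r`, `j < l`)
with `∑ i, |g i j|_∞ ≤ D` there are a nonempty set `I` of indices and at least `c D^k` vectors `d`
with entries in `[1, D]` such that all the `l + 1` vectors `d` and `d + ∑ i ∈ I, g i j` (`j < l`) have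
entries in `[1, D]` and each of them is the vector of the next `k` prime gaps for at least `x^(4/5)`
primes up to `x`.

With `g i j = h i • f j`: for every finite set `{0, f 1, …, f l}` of integer vectors and any `r` positive
integers `h i` (for instance with bounded `h i`, or of size `D / C`), at least `c D^k` of the homothetic copies
`d + λ {0, f 1, …, f l}` with the same ratio `λ`, a sum of distinct numbers `h i`, consist of vectors of `k`
consecutive prime gaps.

The positive proportion theorem for the patterns of a given diameter (`Pool.Agent.H312R2.RG`) is combined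
with the theorem of Furstenberg and Katznelson in finite abelian groups, which is deduced from the density
Hales-Jewett theorem `Pool.Agent.H602R3.DHJ.dhj`.
-/

namespace Pool.Agent.Results.MP_3ec731_nt.IPSzemerediGaps

/-- `d` is the vector of the next `k` prime gaps for at least `x^(4/5)` primes up to `x` -/
def Often (k x : ℕ) (d : Fin k → ℤ) : Prop :=
  (x : ℝ) ^ (4 / 5 : ℝ) ≤ (Set.ncard {n : ℕ | Nat.nth Nat.Prime n ≤ x ∧
    ∀ m : Fin k, (Nat.nth Nat.Prime (n + m + 1) : ℤ) - Nat.nth Nat.Prime (n + m) = d m} : ℝ)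

/-- the vectors which occur often, with entries in `[1, D]` -/
def GapVectors (k x : ℕ) (D : ℝ) : Set (Fin k → ℤ) :=
  {d | (∀ m, 1 ≤ d m ∧ (d m : ℝ) ≤ D) ∧ Often k x d}

theorem result (k l : ℕ) (hk : 1 ≤ k) : ∃ (r : ℕ) (c : ℝ), 0 < c ∧ ∃ x₀ : ℕ, ∀ x : ℕ, x₀ ≤ x →
    ∀ D : ℝ, Real.log x ≤ D →
    D ≤ c * (Real.log x * (Real.log (Real.log x)) ^ 2 *
        Real.log (Real.log (Real.log (Real.log x))) / (Real.log (Real.log (Real.log x))) ^ 2) →
    ∀ g : Fin r → Fin l → Fin k → ℤ, (∀ j m, ((∑ i, |g i j m| : ℤ) : ℝ) ≤ D) →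
    ∃ I : Finset (Fin r), I.Nonempty ∧ ∃ S : Finset (Fin k → ℤ), c * D ^ k ≤ S.card ∧
      ∀ d ∈ S, d ∈ GapVectors k x D ∧ ∀ j, d + ∑ i ∈ I, g i j ∈ GapVectors k x D := by
  obtain ⟨r, c, hc, x0, h⟩ := Pool.Agent.V11270.HP.gap_main k l hk
  refine ⟨r, c, hc, x0, fun x hx D hD1 hD2 g hg => ?_⟩
  obtain ⟨I, hI, S, hS, hS2⟩ := h x hx D hD1 hD2 g hg
  have key : ∀ d : Fin k → ℤ, d ∈ Pool.Agent.V11270.HP.OftenD k x D → d ∈ GapVectors k x D := by
    intro d hd
    refine ⟨hd.1, ?_⟩
    have h1 := hd.2
    unfold Pool.Agent.V11270.HP.Often at h1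
    unfold Often
    have h2 : {n : ℕ | Nat.nth Nat.Prime n ≤ x ∧ Pool.Agent.V11270.HP.gapv k n = d} =
        {n : ℕ | Nat.nth Nat.Prime n ≤ x ∧
          ∀ m : Fin k, (Nat.nth Nat.Prime (n + m + 1) : ℤ) - Nat.nth Nat.Prime (n + m) = d m} := by
      ext n
      simp only [Set.mem_ofPred_eq]
      refine and_congr_right fun _ => ?_
      constructor
      · intro h3 m
        exact congrFun h3 m
      · intro h3
        funext m
        exact h3 m
    rw [← h2]
    exact h1
  exact ⟨I, hI, S, hS, fun d hd => ⟨key d (hS2 d hd).1, fun j => key _ ((hS2 d hd).2 j)⟩⟩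

end Pool.Agent.Results.MP_3ec731_nt.IPSzemerediGaps
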