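import Pool.Agent.H225.EX2

/-!
# Exact patterns at integers with restricted digits, uniformly in all admissible patterns

Let `b ≥ 2` be a base and let the digits of an integer `n < b^K` be restricted: the `i`-th digit belongs
to a set `A i`, where the sets `A i` are arbitrary, depend on the place `i < K`, and have the only
property that the number `∏ |A i|` of these integers is at least `e^{-δK} b^K`, where the constant
`δ > 0` does not depend on `b`.  Let `N` be an arbitrary base point up to a fixed power of `b^K`, and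
`m = N + n`.  We consider ALL admissible patterns `H` of `k` elements in an interval `[0, c K]`: the
length of the pattern may be comparable to the mean distance of the primes near `m`.

The number of the `n` such that all `m + h`, `h ∈ H`, are prime is at most `C V(H) ∏ |A i|`, with the
sieve product `V(H)` of the pattern.  And for at least `κ V(H) ∏ |A i|` of the `n` the numbers in the
interval `[m, m + c K]` without a prime factor `p ≤ b^{K/r}` are EXACTLY the `m + h`, `h ∈ H`, and these
numbers have at most `r` prime factors; in particular no other number in this interval is prime.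

The method is a Brun–Hooley sieve with weights, whose level of distribution is obtained from the Fourier
transform of the set of the integers with restricted digits at rationals (large sieve in blocks of
digits), see `Pool/Agent/Y816/PD`; the numbers `m + j` with `j ∉ H` are excluded by the upper bound for
the patterns with `k + 1` elements and an average of the sieve products over `j`
(`Pool/Agent/H225/EX2`).
-/

set_option autoImplicit false

namespace Pool.Agent.Results.MP_3ec731_nt.RestrictedDigits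

open Finset Filter

/-- `H` is admissible: it does not meet all residue classes modulo any prime. -/
def Admissible (H : Finset ℕ) : Prop :=
  ∀ p : ℕ, p.Prime → ∃ a < p, ∀ h ∈ H, h % p ≠ a

/-- The number of the residue classes modulo `p` which contain an element of `H`. -/
def nu (H : Finset ℕ) (p : ℕ) : ℕ := (H.image (fun h => h % p)).card

/-- The product of `1 - nu p / p` over the primes `p ≤ x`. -/
noncomputable def V (H : Finset ℕ) (x : ℕ) : ℝ :=
  ∏ p ∈ (Icc 1 x).filter Nat.Prime, (1 - (nu H p : ℝ) / p)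

open Classical in
/-- The number of the `n < b ^ K` in `T` whose `i`-th digit in base `b` belongs to `A i` for all
`i < K`. -/
noncomputable def count (b K : ℕ) (A : ℕ → Finset ℕ) (T : Set ℕ) : ℕ :=
  ((range (b ^ K)).filter (fun n => (∀ i < K, n / b ^ i % b ∈ A i) ∧ n ∈ T)).card

/-- The number of choices of the digits. -/
noncomputable def choices (K : ℕ) (A : ℕ → Finset ℕ) : ℝ := ∏ i ∈ range K, ((A i).card : ℝ)

/-- All prime factors of `m` are larger than `z ^ (1 / r)`. -/
def Rough (r z m : ℕ) : Prop := ∀ p : ℕ, p.Prime → p ∣ m → z < p ^ r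

open Pool.Agent.Y816.PD (WG NA ND ND_sub TP)
open Pool.Agent.H225.EX (Adm card_TP neg_res)

lemma adm {H : Finset ℕ} (h : Admissible H) : Adm H := by
  intro p hp
  obtain ⟨a, ha, ha'⟩ := h p hp
  refine ⟨p - a, fun x hx hd => ha' x hx ?_⟩
  have h1 : (p - a) + x ≡ (p - a) + a [MOD p] := by
    have e : (p - a) + a = p := Nat.sub_add_cancel ha.le
    rw [e]
    exact (Nat.modEq_zero_iff_dvd.2 hd).trans (Nat.modEq_zero_iff_dvd.2 dvd_rfl).symm
  have h2 := Nat.ModEq.add_left_cancel' _ h1
  unfold Nat.ModEq at h2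
  rw [h2, Nat.mod_eq_of_lt ha]

open Classical in
lemma nu_eq (H : Finset ℕ) {p : ℕ} (hp : p.Prime) :
    ((range p).filter (fun n : ℕ => ∃ h ∈ H, p ∣ n + h)).card = nu H p := by
  unfold nu
  have hp0 := hp.pos
  refine card_bij' (fun n _ => (p - n) % p) (fun a _ => (p - a) % p) ?_ ?_ ?_ ?_
  · intro n hn
    rw [mem_filter, mem_range] at hn
    obtain ⟨hn, h, hh, hd⟩ := hn
    rw [mem_image]
    refine ⟨h, hh, ?_⟩
    have h1 : n + h ≡ n + (p - n) [MOD p] := by
      have e : n + (p - n) = p := by omega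
      rw [e]
      exact (Nat.modEq_zero_iff_dvd.2 hd).trans (Nat.modEq_zero_iff_dvd.2 dvd_rfl).symm
    exact Nat.ModEq.add_left_cancel' _ h1
  · intro a ha
    rw [mem_image] at ha
    obtain ⟨h, hh, rfl⟩ := ha
    rw [mem_filter, mem_range]
    refine ⟨Nat.mod_lt _ hp0, h, hh, ?_⟩
    have hlt : h % p < p := Nat.mod_lt _ hp0
    have h1 : (p - h % p) % p + h ≡ (p - h % p) + h % p [MOD p] :=
      Nat.ModEq.add (Nat.mod_modEq _ _) (Nat.mod_modEq _ _).symm
    rw [Nat.sub_add_cancel hlt.le] at h1
    exact Nat.modEq_zero_iff_dvd.1 (h1.trans (Nat.modEq_zero_iff_dvd.2 dvd_rfl))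
  · intro n hn
    rw [mem_filter, mem_range] at hn
    rcases Nat.eq_zero_or_pos n with rfl | h0
    · simp
    · rw [Nat.mod_eq_of_lt (by omega : p - n < p)]
      have e : p - (p - n) = n := by omega
      rw [e, Nat.mod_eq_of_lt hn.1]
  · intro a ha
    rw [mem_image] at ha
    obtain ⟨h, hh, rfl⟩ := ha
    have hlt : h % p < p := Nat.mod_lt _ hp0
    rcases Nat.eq_zero_or_pos (h % p) with h0 | h0
    · rw [h0]
      simp
    · rw [Nat.mod_eq_of_lt (by omega : p - h % p < p)]
      have e : p - (p - h % p) = h % p := by omega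
      rw [e, Nat.mod_mod]

lemma WG_eq (H : Finset ℕ) (N x : ℕ) : WG (TP H N) x = V H x := by
  classical
  unfold WG V
  refine prod_congr rfl fun p hp => ?_
  have hpp := (mem_filter.1 hp).2
  rw [← nu_eq H hpp]
  have := card_TP H N hpp
  congr 3

/-- **Exact patterns at integers with restricted digits, uniformly in all admissible patterns with `k`
elements and diameter up to a small multiple of the mean distance of the primes.** -/
theorem result (k D : ℕ) (hk : 1 ≤ k) :
    ∃ δ : ℝ, 0 < δ ∧ ∃ r₀ : ℕ, 2 ≤ r₀ ∧ ∀ r : ℕ, r₀ ≤ r → ∀ b : ℕ, 2 ≤ b →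
      ∃ κ C c : ℝ, 0 < κ ∧ 0 < C ∧ 0 < c ∧
      ∀ᶠ K : ℕ in atTop, ∀ N : ℕ, N ≤ b ^ (D * K) →
        ∀ H : Finset ℕ, H.card = k → (∀ h ∈ H, (h : ℝ) ≤ c * K) → Admissible H →
        ∀ A : ℕ → Finset ℕ, (∀ i < K, A i ⊆ range b) →
        (b : ℝ) ^ K ≤ Real.exp (δ * K) * choices K A →
        κ / (K : ℝ) ^ k ≤ V H (b ^ K) ∧
        ((∃ e ∈ A 0, ∀ h ∈ H, (N + e + h).Coprime b) → (∃ e ∈ A (K - 1), e ≠ 0) →
          κ * choices K A * V H (b ^ K) ≤ count b K A {n | b ^ (K - 1) ≤ n ∧
            (∀ j : ℕ, (j : ℝ) ≤ c * K → (Rough r (b ^ K) (N + n + j) ↔ j ∈ H)) ∧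
            ∀ h ∈ H, (N + n + h).primeFactorsList.length ≤ r}) ∧
        (count b K A {n | ∀ h ∈ H, (N + n + h).Prime} : ℝ) ≤ C * choices K A * V H (b ^ K) := by
  obtain ⟨δ, hδ, r₀, hr₀, h⟩ := Pool.Agent.H225.EX.exact k D hk
  refine ⟨δ, hδ, r₀, hr₀, fun r hr b hb => ?_⟩
  obtain ⟨κ, C, c, hκ, hC, hc, h1⟩ := h r hr b hb
  refine ⟨κ, C, c, hκ, hC, hc, ?_⟩
  filter_upwards [h1] with K hK N hN H hHk hHc hadm A hA hprod
  obtain ⟨h2, h3, h4⟩ := hK N hN H hHk hHc (adm hadm) A hA hprod
  rw [WG_eq] at h2 h3 h4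
  refine ⟨h2, fun hcop htop => (h3 hcop htop).trans (Nat.cast_le.2 ?_),
    le_trans (Nat.cast_le.2 ?_) h4⟩
  · refine ND_sub fun n _ hn1 hn2 => ⟨hn1, hn2.1, fun j hj => ⟨fun hR => ?_, fun hj2 => ?_⟩,
      fun h hh => (hn2.2.1 h hh).2⟩
    · by_contra hj2
      exact hn2.2.2 j hj hj2 hR
    · exact (hn2.2.1 j hj2).1
  · refine ND_sub fun n _ hn1 hn2 => ⟨hn1, fun h hh p hp hd => ?_⟩
    have hp0 : (N + n + h).Prime := hn2 h hh
    rw [(Nat.prime_dvd_prime_iff_eq hp hp0).1 hd]
    have h5 : N + n + h < (N + n + h) ^ 2 := by nlinarith [hp0.two_le]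
    have h6 : (N + n + h) ^ 2 ≤ (N + n + h) ^ r := Nat.pow_le_pow_right hp0.pos (by omega)
    omega

end Pool.Agent.Results.MP_3ec731_nt.RestrictedDigits
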