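import Mathlib
import Pool.Agent.V11161.GV.MainTwo
import Pool.Agent.V11161.GV.Conv

set_option autoImplicit false

/-!
# MP_3ec731_nt: three sets of shifts, pairs in two of them or almost all quintuples in one

For all `k` and `ε > 0` there are `z`, `n₀`, `C` and `δ > 0` such that for every large `N` and all
pairwise disjoint sets `U`, `V`, `W` of natural numbers `≤ N`, of the same size `≥ n₀`, for which the
shifts in `U ∪ V ∪ W` have no common obstruction at the primes `p ≤ z`, at least one of the following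
holds.

* (pairs in different sets) for at least `δ |U| ^ 2` of the pairs `(u, v)` in `U × V`, or in `U × W`,
  or in `V × W`, there are at least `N / (log N) ^ C` numbers `n ≤ N` such that `n + u` and `n + v`
  are primes;
* (tuples in one set) in one of the three sets at least `(d - ε) |U| ^ (k + 1)` of the tuples
  `(t_0, …, t_k)` consist of distinct elements and are such that for at least `N / (log N) ^ C`
  numbers `n ≤ N` all of `n + t_0, …, n + t_k` are primes.

Here `d = 1` for `k ≤ 4`: ALMOST ALL pairs, triples, quadruples and quintuples; and `d = (5 / 6) ^ k`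
for `k ≥ 5`.

For example, let `(c_1, c_2, c_3)` be an admissible triple and let the sets be
`{c_i + P h : h ≤ X}` with `P = z!`: either a positive proportion of the integers `c_j - c_i + P h`,
`|h| ≤ X`, for some `i ≠ j`, are differences of primes, or for almost all `(h_1, …, h_4)` up to `X`
there are five primes `p, p + P h_1, …, p + P h_4`, already for the primes up to `N`, for every
large `N`.

Proof. By the coloured Maynard–Tao theorem of the starting library
(`Pool.Agent.Y827.RO.lamRD`: of `T` classes of forms more than `T / 3.6 - 1` are hit) five elements of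
each of the sets, fifteen classes, would give five hits; if no two different sets are hit, these are
the five elements of one set.
-/

namespace Pool.Agent.Results.MP_3ec731_nt.ThreeSetsOfShifts

open Filter

/-- the proportion: `1` for at most five primes, `(5 / 6) ^ k` for `k + 1 ≥ 6` primes -/
noncomputable def proportion (k : ℕ) : ℝ := if k ≤ 4 then 1 else (5 / 6) ^ k

/-- the number of pairs `(u, v)` in `U × V` such that `n + u` and `n + v` are primes for at least
`N / (log N) ^ C` numbers `n ≤ N` -/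
noncomputable def pairs (C N : ℕ) (U V : Finset ℕ) : ℕ :=
  {x : ℕ × ℕ | x.1 ∈ U ∧ x.2 ∈ V ∧ (N : ℝ) / (Real.log N) ^ C ≤
    ({n : ℕ | n ≤ N ∧ (n + x.1).Prime ∧ (n + x.2).Prime}.ncard : ℝ)}.ncard

/-- the number of tuples `t` of `k + 1` distinct elements of `U` such that `n + t_0, …, n + t_k` are
primes for at least `N / (log N) ^ C` numbers `n ≤ N` -/
noncomputable def tuples (k C N : ℕ) (U : Finset ℕ) : ℕ :=
  {t : Fin (k + 1) → ℕ | (∀ i, t i ∈ U) ∧ Function.Injective t ∧ (N : ℝ) / (Real.log N) ^ C ≤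
    ({n : ℕ | n ≤ N ∧ ∀ i, (n + t i).Prime}.ncard : ℝ)}.ncard

open Pool.Agent.V11161.GV Pool.Agent.Y827.GS in
theorem cnt_ll (v w N : ℕ) : cntN {lf v, lf w} N ≤
    {n : ℕ | n ≤ N ∧ (n + v).Prime ∧ (n + w).Prime}.ncard := by
  unfold cntN
  rw [← Set.ncard_coe_finset]
  refine Set.ncard_le_ncard ?_ ((Set.finite_Iic N).subset fun n hn => hn.1)
  intro n hn
  obtain ⟨h3, h4⟩ := Finset.mem_filter.1 (Finset.mem_coe.1 hn)
  have h5 : (1 * (n : ℤ) + (v : ℤ)).toNat.Prime := h4 (lf v) (Finset.mem_insert_self _ _)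
  have h6 : (1 * (n : ℤ) + (w : ℤ)).toNat.Prime :=
    h4 (lf w) (Finset.mem_insert_of_mem (Finset.mem_singleton_self _))
  have e5 : (1 * (n : ℤ) + (v : ℤ)).toNat = n + v := by omega
  have e6 : (1 * (n : ℤ) + (w : ℤ)).toNat = n + w := by omega
  rw [e5] at h5
  rw [e6] at h6
  exact ⟨(Finset.mem_Icc.1 h3).2, h5, h6⟩

open Pool.Agent.V11161.GV in
theorem result (k : ℕ) (ε : ℝ) (hε : 0 < ε) : ∃ z n₀ C : ℕ, ∃ δ : ℝ, 0 < δ ∧
    ∀ᶠ N : ℕ in atTop, ∀ U V W : Finset ℕ, V.card = U.card → W.card = U.card → n₀ ≤ U.card →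
      Disjoint U V → Disjoint U W → Disjoint V W →
      (∀ u ∈ U, u ≤ N) → (∀ v ∈ V, v ≤ N) → (∀ w ∈ W, w ≤ N) →
      (∀ p : ℕ, p.Prime → p ≤ z → ∃ n : ℕ, (∀ u ∈ U, ¬ p ∣ n + u) ∧ (∀ v ∈ V, ¬ p ∣ n + v) ∧
        ∀ w ∈ W, ¬ p ∣ n + w) →
      (δ * (U.card : ℝ) ^ 2 ≤ pairs C N U V ∨ δ * (U.card : ℝ) ^ 2 ≤ pairs C N U W ∨
        δ * (U.card : ℝ) ^ 2 ≤ pairs C N V W) ∨
      ((proportion k - ε) * (U.card : ℝ) ^ (k + 1) ≤ tuples k C N U ∨
        (proportion k - ε) * (U.card : ℝ) ^ (k + 1) ≤ tuples k C N V ∨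
        (proportion k - ε) * (U.card : ℝ) ^ (k + 1) ≤ tuples k C N W) := by
  classical
  have hd : proportion k = d3 k := rfl
  rw [hd]
  obtain ⟨z, n₀, C, δ, hδ, h⟩ := main_three k ε hε
  refine ⟨z, n₀, C, δ, hδ, ?_⟩
  filter_upwards [h 1] with N hN
  intro U V W hc1 hc2 hn hd1 hd2 hd3 hU hV hW hloc
  have hc : ∀ S : Finset ℕ, (S.image lf).card = S.card := fun S =>
    Finset.card_image_of_injective _ lf_inj
  have hdis : ∀ S S' : Finset ℕ, Disjoint S S' → Disjoint (S.image lf) (S'.image lf) := by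
    intro S S' hd
    rw [Finset.disjoint_left]
    intro a ha hb
    obtain ⟨v, hv, rfl⟩ := Finset.mem_image.1 ha
    obtain ⟨w, hw, hvw⟩ := Finset.mem_image.1 hb
    have := lf_inj hvw
    subst this
    exact (Finset.disjoint_left.1 hd) hv hw
  have hadf : ∀ S : Finset ℕ, (∀ u ∈ S, u ≤ N) → ∀ f ∈ S.image lf, Pool.Agent.Y827.GS.Adf 1 N f := by
    intro S hS f hf
    obtain ⟨v, hv, rfl⟩ := Finset.mem_image.1 hf
    exact adf_lf (hS v hv)
  have hdv : ∀ (p n : ℕ) (S : Finset ℕ), (∀ u ∈ S, ¬ p ∣ n + u) →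
      ∀ f ∈ S.image lf, ¬ ((p : ℤ) ∣ f.1 * (n : ℤ) + f.2) := by
    intro p n S hS f hf
    obtain ⟨v, hv, rfl⟩ := Finset.mem_image.1 hf
    have e : (lf v).1 * (n : ℤ) + (lf v).2 = ((n + v : ℕ) : ℤ) := by
      show (1 : ℤ) * (n : ℤ) + (v : ℤ) = ((n + v : ℕ) : ℤ)
      push_cast
      ring
    rw [e]
    intro hdvd
    exact hS v hv (by exact_mod_cast hdvd)
  have key := hN (U.image lf) (V.image lf) (W.image lf) (by rw [hc, hc, hc1]) (by rw [hc, hc, hc2])
    (by rw [hc]; exact hn) (hdis _ _ hd1) (hdis _ _ hd2) (hdis _ _ hd3) (hadf U hU) (hadf V hV)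
    (hadf W hW) (by
      intro p hp hpz
      obtain ⟨n, h1, h2, h3⟩ := hloc p hp hpz
      exact ⟨n, hdv p n U h1, hdv p n V h2, hdv p n W h3⟩)
  rw [hc, hc, hc, hc1, hc2] at key
  have hpair : ∀ S S' : Finset ℕ, δ * (U.card : ℝ) ^ 2 ≤ ((((S.image lf) ×ˢ (S'.image lf)).filter
      fun u => (N : ℝ) / (Real.log N) ^ C ≤
        (Pool.Agent.Y827.GS.cntN {u.1, u.2} N : ℝ)).card : ℝ) →
      δ * (U.card : ℝ) ^ 2 ≤ pairs C N S S' := fun S S' h2 =>
    h2.trans (conv_pair lf lf S S' ((N : ℝ) / (Real.log N) ^ C) N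
      (fun a b => {n : ℕ | n ≤ N ∧ (n + a).Prime ∧ (n + b).Prime}.ncard)
      fun v _ w _ => cnt_ll v w N)
  have htup : ∀ S : Finset ℕ, (d3 k - ε) * (U.card : ℝ) ^ (k + 1) ≤
      (((Fintype.piFinset fun _ : Fin (k + 1) => S.image lf).filter fun t =>
        Function.Injective t ∧ (N : ℝ) / (Real.log N) ^ C ≤
          (Pool.Agent.Y827.GS.cntN (Finset.univ.image t) N : ℝ)).card : ℝ) →
      (d3 k - ε) * (U.card : ℝ) ^ (k + 1) ≤ tuples k C N S := by
    intro S h2
    refine (h2.trans (conv_tup lf S ((N : ℝ) / (Real.log N) ^ C) N)).trans (le_of_eq ?_)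
    have e : ∀ (n v : ℕ), ((lf v).1 * (n : ℤ) + (lf v).2).toNat = n + v := by
      intro n v
      show (1 * (n : ℤ) + (v : ℤ)).toNat = n + v
      omega
    unfold tuples
    simp only [e]
  rcases key with h2 | h2 | h2 | h2 | h2 | h2
  · exact Or.inl (Or.inl (hpair _ _ h2))
  · exact Or.inl (Or.inr (Or.inl (hpair _ _ h2)))
  · exact Or.inl (Or.inr (Or.inr (hpair _ _ h2)))
  · exact Or.inr (Or.inl (htup _ h2))
  · exact Or.inr (Or.inr (Or.inl (htup _ h2)))
  · exact Or.inr (Or.inr (Or.inr (htup _ h2)))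

end Pool.Agent.Results.MP_3ec731_nt.ThreeSetsOfShifts
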